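import Pool.Agent.Helper58.R3.Stmts

open Classical

/-!
# R3, module LEAF: counting for one leaf
-/

namespace Pool.Agent.Helper58.R3

theorem leaf_first (m : ℕ) (H : SimpleGraph (Fin m)) (v0 : Fin m) (A : Type)
    (X : Finset (Fin m)) (L D : A → Finset (Fin m)) (Φ : A → Fin m → Fin m)
    (c : Cfg H v0 X L D Φ) (l : A) :
    (∃ z, z ∉ L l ∧ z ∉ D l) ∧ (D l).card ≤ 3 ∧
      ((L l).Nonempty → (D l).card = 3 ∧ nb H (L l) = D l) := by
  have hv : ∀ x ∈ L l ∪ D l, Φ l x ≠ v0 := by
    intro x hx
    rcases Finset.mem_union.1 hx with h | h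
    · exact (c.ΦL l x h).1
    · intro he
      have := c.ΦD l x h
      rw [he] at this
      exact H.loopless.irrefl _ this
  have hz : ∃ z, z ∉ L l ∧ z ∉ D l := by
    by_contra hcon
    push Not at hcon
    have hall : ∀ x, x ∈ L l ∪ D l := by
      intro x
      rw [Finset.mem_union]
      by_cases h : x ∈ L l
      · exact Or.inl h
      · exact Or.inr (hcon x h)
    have hinj : Function.Injective (Φ l) := fun x y h => c.inj l x (hall x) y (hall y) h
    obtain ⟨x, hx⟩ := (Finite.injective_iff_surjective.1 hinj) v0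
    exact hv x (hall x) hx
  have hD : (D l).card ≤ 3 := by
    rw [← c.deg]
    refine Finset.card_le_card_of_injOn (Φ l) ?_ ?_
    · intro x hx
      have := c.ΦD l x hx
      unfold N
      simp only [Finset.coe_filter, Finset.mem_univ, true_and, Set.mem_setOf_eq]
      exact this
    · intro x hx y hy h
      exact c.inj l x (Finset.mem_union_right _ hx) y (Finset.mem_union_right _ hy) h
  refine ⟨hz, hD, fun hL => ?_⟩
  have hsub : nb H (L l) ⊆ D l := by
    intro x hx
    unfold nb at hx
    simp only [Finset.mem_filter, Finset.mem_univ, true_and] at hx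
    obtain ⟨h1, y, hy, hyx⟩ := hx
    rcases c.nbL l y hy x hyx with h | h
    · exact absurd h h1
    · exact h
  have h3 : 3 ≤ (nb H (L l)).card := by
    by_contra hcon
    push Not at hcon
    obtain ⟨z, h1, h2⟩ := hz
    rcases c.k3 (L l) hL (by omega) z with h | h
    · exact h1 h
    · exact h2 (hsub h)
  have heq : nb H (L l) = D l := Finset.eq_of_subset_of_card_le hsub (by omega)
  refine ⟨?_, heq⟩
  rw [heq] at h3
  omega

theorem st_LEAF : ST_LEAF := by
  intro m H v0 A X L D Φ c l
  obtain ⟨hz, hD, hL3⟩ := leaf_first m H v0 A X L D Φ c l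
  refine ⟨hz, fun hL => ?_⟩
  obtain ⟨h3, hnb⟩ := hL3 hL
  refine ⟨h3, hnb, ?_, ?_⟩
  · have hsub : nb H (Finset.univ \ (L l ∪ D l)) ⊆ D l := by
      intro x hx
      unfold nb at hx
      simp only [Finset.mem_filter, Finset.mem_univ, true_and, Finset.mem_sdiff,
        Finset.mem_union, not_not] at hx
      obtain ⟨h1, y, hy, hyx⟩ := hx
      rcases h1 with h | h
      · exact absurd (c.nbL l x h y hyx.symm) hy
      · exact h
    obtain ⟨z, hz1, hz2⟩ := hz
    have hne : (Finset.univ \ (L l ∪ D l)).Nonempty := by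
      refine ⟨z, ?_⟩
      simp only [Finset.mem_sdiff, Finset.mem_univ, true_and, Finset.mem_union]
      tauto
    obtain ⟨w, hw⟩ := hL
    have hwD : w ∉ D l := fun h => c.LX l w hw (c.DX l w h)
    have hge : 3 ≤ (nb H (Finset.univ \ (L l ∪ D l))).card := by
      by_contra hcon
      push Not at hcon
      rcases c.k3 _ hne (by omega) w with h | h
      · simp only [Finset.mem_sdiff, Finset.mem_univ, true_and, Finset.mem_union] at h
        exact h (Or.inl hw)
      · exact hwD (hsub h)
    exact Finset.eq_of_subset_of_card_le hsub (by omega)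
  · rintro ⟨z, hzL, hzD, hadj⟩
    have hDne : (D l).Nonempty := by
      rw [← Finset.card_pos]
      omega
    obtain ⟨d0, hd0⟩ := hDne
    have hzX : z ∉ X := fun h => c.ind z h d0 (c.DX l d0 hd0) (hadj d0 hd0)
    rcases c.cov z with h | ⟨l', hl'⟩
    · exact hzX h
    · have hsub : D l ⊆ D l' := by
        intro d hd
        rcases c.nbL l' z hl' d (hadj d hd) with h | h
        · exact absurd (c.DX l d hd) (c.LX l' d h)
        · exact h
      have h3' := ((leaf_first m H v0 A X L D Φ c l').2.2 ⟨z, hl'⟩).1
      have heq : D l = D l' := Finset.eq_of_subset_of_card_le hsub (by omega)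
      have : l = l' := c.dst l l' h3 heq
      subst this
      exact hzL hl'

end Pool.Agent.Helper58.R3
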